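import Mathlib
import Pool.Agent.Helper107.LC.MAsm

/-!
# Compact Lorentzian manifolds globally conformal to constant curvature are geodesically complete

Intrinsic form. `R m = EuclideanSpace ℝ (Fin (m+1))`, so `M` is a compact connected Hausdorff smooth
manifold of dimension `n = m+1 ≥ 2`. The definitions are in `Pool.Agent.Helper107.LC.MDefs`.
-/
open Set Filter Topology
open scoped ContDiff Manifold
open Pool.Agent.Helper107.LC

namespace Pool.Agent.Results.MP_5bfe9a_gt.ManifoldComplete

/-- Let `g` be a smooth Lorentzian metric on a compact smooth manifold `M` of dimension `m+1 ≥ 2` and let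
`f` be a smooth function such that `e^{2f} g` has constant sectional curvature `K`. Then every geodesic of
`g` (of any causal type, defined on any open interval) extends to a geodesic defined on `ℝ`. -/
theorem result {m : ℕ} (hm : 1 ≤ m) {M : Type*} [TopologicalSpace M] [ChartedSpace (R m) M]
    [IsManifold (𝓡 (m + 1)) ∞ M] [T2Space M] [CompactSpace M] [ConnectedSpace M]
    (g : LorentzMetric m M) (K : ℝ) (f : M → ℝ) (hf : SmoothFun m f) (hK : g.ConfConst f K)
    (I : Set ℝ) (hI : IsOpen I) (hIc : I.OrdConnected) (hne : I.Nonempty)
    (c : ℝ → M) (hc : g.IsGeodesic c I) :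
    ∃ c' : ℝ → M, g.IsGeodesic c' univ ∧ EqOn c' c I :=
  manifold_complete hm g K f hf hK I hI hIc hne c hc

end Pool.Agent.Results.MP_5bfe9a_gt.ManifoldComplete
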